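import Pool.Agent.H816R2.KM2N

/-!
A Steiner system `S(785,8,2)`: a difference family over `ℤ_5 × ℤ_157` with 14 base blocks,
invariant under a group of multipliers of order 12 (two base blocks fixed by a multiplier of order
3, and two orbits of 6 base blocks).
-/

set_option autoImplicit false

namespace Pool.Agent.TH887.ST

open Pool.Agent.H816R2.KM2

def full785 : List (List ℕ) :=
  [[0, 1, 373, 387, 492, 518, 688, 697],
   [0, 2, 156, 291, 341, 379, 579, 624],
   [0, 43, 70, 146, 327, 330, 407, 608],
   [0, 52, 89, 96, 195, 279, 751, 755],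
   [0, 17, 125, 303, 319, 365, 522, 558],
   [0, 180, 321, 334, 395, 436, 454, 653],
   [0, 35, 55, 152, 171, 198, 483, 762],
   [0, 164, 239, 356, 366, 425, 602, 770],
   [0, 5, 147, 219, 447, 520, 553, 722],
   [0, 23, 54, 110, 144, 326, 374, 450],
   [0, 65, 87, 293, 318, 441, 480, 728],
   [0, 101, 251, 262, 304, 355, 645, 651],
   [0, 7, 60, 172, 229, 323, 632, 745],
   [0, 114, 243, 519, 535, 604, 690, 761]]

theorem ex785 : ∃ 𝓑 : Set (Finset (Fin 785)), IsS2 (Fin 785) 8 𝓑 :=
  of_coded (codedP 5 (codedZ 157)) 8 1 0 785 rfl full785 []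
    (by decide +kernel) (by decide +kernel) (by decide +kernel) (by decide +kernel)
    (by decide +kernel) (by decide +kernel)

end Pool.Agent.TH887.ST
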