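import Pool.Agent.H816R2.KM2N

/-!
A Steiner system `S(225,8,2)`: a difference family over `ℤ_3 × ℤ_3 × ℤ_5 × ℤ_5` whose four base
blocks are the images of one block under a quaternion group of order 8 acting on the group
(semiregularly on the nonzero elements of both Sylow subgroups).
-/

set_option autoImplicit false

namespace Pool.Agent.TH887.ST

open Pool.Agent.H816R2.KM2

def full225 : List (List ℕ) :=
  [[0, 11, 45, 83, 100, 138, 139, 217],
   [0, 24, 66, 120, 135, 168, 182, 185],
   [0, 20, 25, 36, 53, 76, 193, 224],
   [0, 27, 40, 42, 113, 124, 142, 149]]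

theorem ex225 : ∃ 𝓑 : Set (Finset (Fin 225)), IsS2 (Fin 225) 8 𝓑 :=
  of_coded (codedP 3 (codedP 3 (codedP 5 (codedZ 5)))) 8 1 0 225 rfl full225 []
    (by decide +kernel) (by decide +kernel) (by decide +kernel) (by decide +kernel)
    (by decide +kernel) (by decide +kernel)

end Pool.Agent.TH887.ST
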